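import Pool.Agent.Lib.DT.V.All

/-!
# Theorem DM, part V: symbols which are constant on `ℤ[1/l]`, `l` an odd prime (author helper97)

`thmV`: an equivalence relation `E` on the rational numbers (`E r s`: the symbol has the same value at `r` and `s`) with
`E (g y) (g 0)` for all `y ∈ ℤ[1/l]`, `g ∈ Γ₀(M)`, satisfies `E (b/d) 0` whenever `b, d` are coprime and `M ∣ d - 1`.
The values may be in any set; in particular vector valued symbols are allowed.
Proof: a matrix over `ℤ[1/l]` with lower left entry in `M ℤ[1/l]` acts on `ℤ[1/l]` as an integral one followed by an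
affine map (`DT.V.tDec`), so `E (k y) (k 0)` for all such `k`; induction on the orbit `E0 l M`; the orbit contains all
`b/d` (`DT.V.tSt`).
-/

set_option autoImplicit false

noncomputable section

namespace Pool.Agent.DM

open DT.V (AL E0)

/-- The relation on `ℤ[1/l]`, transformed by the matrices over `ℤ[1/l]`. -/
theorem thmV_AL {l M : ℕ} (hl : l.Prime) (ho : l.Coprime M) {E : ℚ → ℚ → Prop} (hE : Equivalence E)
    (hg : ∀ a b c d : ℤ, a * d - b * c = 1 → (M : ℤ) ∣ c → ∀ y : ℚ, AL l y →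
      E ((a * y + b) / (c * y + d)) (b / d))
    {a b z d : ℚ} (ha : AL l a) (hb : AL l b) (hz : AL l z) (hd : AL l d) (h : a * d - b * (M * z) = 1)
    {y : ℚ} (hy : AL l y) : E ((a * y + b) / (M * z * y + d)) (b / d) := by
  obtain ⟨a0, b0, c0, d0, hdet, hM, H⟩ := DT.V.tDec hl ho a b z d ha hb hz hd h
  obtain ⟨y', hy', e⟩ := H y hy
  obtain ⟨y0, hy0, e0⟩ := H 0 AL.zero
  have e1 : b / d = (a * 0 + b) / (M * z * 0 + d) := by simp
  rw [e1, e, e0]
  exact hE.trans (hg a0 b0 c0 d0 hdet hM y' hy') (hE.symm (hg a0 b0 c0 d0 hdet hM y0 hy0))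

/-- The orbit. -/
theorem thmV_E0 {l M : ℕ} (hl : l.Prime) (ho : l.Coprime M) (h3 : 2 ≤ M) {E : ℚ → ℚ → Prop}
    (hE : Equivalence E)
    (hg : ∀ a b c d : ℤ, a * d - b * c = 1 → (M : ℤ) ∣ c → ∀ y : ℚ, AL l y →
      E ((a * y + b) / (c * y + d)) (b / d))
    {r : ℚ} (hr : E0 l M r) : ∀ a b z d : ℚ, AL l a → AL l b → AL l z → AL l d →
      a * d - b * (M * z) = 1 → E ((a * r + b) / (M * z * r + d)) (b / d) := by
  have hl0 := hl.ne_zero
  induction hr with
  | zero =>
    intro a b z d _ _ _ _ _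
    rw [mul_zero, mul_zero, zero_add, zero_add]
    exact hE.refl _
  | @up r y hy hr ih =>
    intro a b z d ha hb hz hd hdet
    have hMz : AL l (M * z) := (AL.nat M).mul hz
    have e1 : (a * (r + y) + b) / (M * z * (r + y) + d) =
        (a * r + (a * y + b)) / (M * z * r + (M * z * y + d)) := by
      congr 1 <;> ring
    rw [e1]
    exact hE.trans (ih a (a * y + b) z (M * z * y + d) ha ((ha.mul hy).add hl0 hb) hz
      ((hMz.mul hy).add hl0 hd) (by linear_combination hdet)) (thmV_AL hl ho hE hg ha hb hz hd hdet hy)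
  | @lo r w hw hr ih =>
    intro a b z d ha hb hz hd hdet
    have hden : M * w * r + 1 ≠ 0 := hr.den h3 ho hw
    have e1 : (a * (r / (M * w * r + 1)) + b) / (M * z * (r / (M * w * r + 1)) + d) =
        ((a + b * (M * w)) * r + b) / (M * (z + d * w) * r + d) := by
      have e2 : a * (r / (M * w * r + 1)) + b =
          ((a + b * (M * w)) * r + b) / (M * w * r + 1) := by
        rw [eq_div_iff hden, add_mul, mul_assoc a, div_mul_cancel₀ _ hden]
        ring
      have e3 : M * z * (r / (M * w * r + 1)) + d =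
          (M * (z + d * w) * r + d) / (M * w * r + 1) := by
        rw [eq_div_iff hden, add_mul, mul_assoc (M * z), div_mul_cancel₀ _ hden]
        ring
      rw [e2, e3, div_div_div_cancel_right₀ hden]
    rw [e1]
    exact ih (a + b * (M * w)) b (z + d * w) d
      (ha.add hl0 (hb.mul ((AL.nat M).mul hw))) hb (hz.add hl0 (hd.mul hw)) hd
      (by linear_combination hdet)

/-- **Theorem V for symbols which are constant on `ℤ[1/l]`.** -/
theorem thmV {l M : ℕ} (hl : l.Prime) (hl2 : l ≠ 2) (ho : l.Coprime M) (h3 : 2 ≤ M)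
    {E : ℚ → ℚ → Prop} (hE : Equivalence E)
    (hg : ∀ a b c d : ℤ, a * d - b * c = 1 → (M : ℤ) ∣ c → ∀ y : ℚ, AL l y →
      E ((a * y + b) / (c * y + d)) (b / d))
    {b d : ℤ} (hbd : IsCoprime b d) (hd : (M : ℤ) ∣ d - 1) : E (b / d) 0 := by
  have h1 := thmV_E0 hl ho h3 hE hg (DT.V.tSt l M hl hl2 ho h3 b d hbd hd) 1 0 0 1 AL.one AL.zero
    AL.zero AL.one (by ring)
  have e1 : ((1 : ℚ) * (b / d) + 0) / (M * 0 * (b / d) + 1) = b / d := by
    rw [mul_zero, zero_mul, zero_add, div_one, one_mul, add_zero]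
  rwa [e1, zero_div] at h1

/-- Denominators. -/
theorem thmV_den {l M : ℕ} (ho : l.Coprime M) {y : ℚ} (hy : AL l y) : y.den.Coprime M := by
  obtain ⟨c, j, rfl⟩ := hy
  have h1 : (((c : ℚ) / (l : ℚ) ^ j).den : ℤ) ∣ (((l : ℤ)) ^ j) := by
    have e : ((c : ℚ) / (l : ℚ) ^ j) = Rat.divInt c ((l : ℤ) ^ j) := by
      rw [Rat.divInt_eq_div]
      push_cast
      rfl
    rw [e]
    exact Rat.den_dvd c ((l : ℤ) ^ j)
  have h2 : ((c : ℚ) / (l : ℚ) ^ j).den ∣ l ^ j := by exact_mod_cast h1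
  exact Nat.Coprime.coprime_dvd_left h2 (Nat.Coprime.pow_left j ho)

/-- **Vector valued symbols.** `h` has values in a module `W` over a ring `F`; for `g ∈ Γ₀(M)` the function `h ∘ g` is
`al h(r) + be h(r + 1) + const` (`al`, `be` in `F` depend on `g`). If `h` is constant on `ℤ[1/l]`, then it is constant on
the `Γ₁(M)`-orbit of `0`. -/
theorem thmV_vec {l M : ℕ} (hl : l.Prime) (hl2 : l ≠ 2) (ho : l.Coprime M) (h3 : 2 ≤ M) {F W : Type}
    [Ring F] [AddCommGroup W] [Module F W] {h : ℚ → W}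
    (hA : ∀ (c : ℤ) (j : ℕ), h (c / (l : ℚ) ^ j) = h 0)
    (hG : ∀ a b c d : ℤ, a * d - b * c = 1 → (M : ℤ) ∣ c → ∃ (al be : F) (w : W), ∀ r : ℚ,
      r.den.Coprime M → h ((a * r + b) / (c * r + d)) = al • h r + be • h (r + 1) + w)
    {b d : ℤ} (hbd : IsCoprime b d) (hd : (M : ℤ) ∣ d - 1) : h (b / d) = h 0 := by
  refine thmV (E := fun r s => h r = h s) hl hl2 ho h3
    ⟨fun r => rfl, fun h1 => h1.symm, fun h1 h2 => h1.trans h2⟩ ?_ hbd hd
  intro a b c d h1 h2 y hy
  obtain ⟨al, be, w, h3⟩ := hG a b c d h1 h2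
  have hA' : ∀ y : ℚ, AL l y → h y = h 0 := by
    rintro y ⟨c, j, rfl⟩
    exact hA c j
  have k1 := h3 y (thmV_den ho hy)
  have k2 := h3 0 (thmV_den ho AL.zero)
  rw [hA' y hy, hA' (y + 1) (hy.add hl.ne_zero AL.one)] at k1
  rw [hA' (0 + 1) (AL.zero.add hl.ne_zero AL.one), mul_zero, mul_zero, zero_add, zero_add] at k2
  rw [k1, k2]

end Pool.Agent.DM
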