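import Pool.Agent.Lib.DM.V.V

/-!
# Theorem DM, part V: the special case `k = 1`, sign `-` (author helper85; note 4294, section 4)

`h` transforms under `Γ₀(M)` as `ψ(d) [(a - b) h(r) + b h(r + 1)] + const`, `ψ(-1) = -1`, characteristic `3`, and
`h(y + 1) = h(y)` for all `y` in `ℤ[1/3]` which are not integers. Then `h(b/d) = h(0)` for `M ∣ d - 1`, `3 ∣ b`.
Proof: `Y = h - C' E₁`, `E₁(p/q) = ψ(q) p`, `C' = h(1) - h(0)`, is constant on `ℤ[1/3]`.
-/

set_option autoImplicit false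

noncomputable section

namespace Pool.Agent.DM.V1

open DT.V (AL E0)

variable {M : ℕ} {F : Type} [Field F]

/-- `E₁(p/q) = ψ(q) p`. -/
def E1 (ψ : MulChar (ZMod M) F) (r : ℚ) : F := ψ (r.den : ZMod M) * (r.num : F)

theorem E1_frac {ψ : MulChar (ZMod M) F} (hneg : ψ (-1) = -1) {p q : ℤ} (h : IsCoprime p q)
    (hq : q ≠ 0) : E1 ψ (p / q) = ψ (q : ZMod M) * (p : F) := by
  have key : ∀ p q : ℤ, IsCoprime p q → 0 < q → E1 ψ (p / q) = ψ (q : ZMod M) * (p : F) := by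
    intro p q h hq
    obtain ⟨n, rfl⟩ : ∃ n : ℕ, q = n := ⟨q.toNat, by omega⟩
    have hc : p.natAbs.Coprime (n : ℤ).natAbs := Int.isCoprime_iff_gcd_eq_one.1 h
    have e1 := Rat.num_div_eq_of_coprime hq hc
    have e2 := Rat.den_div_eq_of_coprime hq hc
    have e3 : ((p : ℚ) / ((n : ℤ) : ℚ)).den = n := by exact_mod_cast e2
    unfold E1
    rw [e1, e3, Int.cast_natCast]
  rcases lt_or_gt_of_ne hq with h1 | h1
  · have h2 := key (-p) (-q) ((h.neg_left).neg_right) (by omega)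
    have e : ((-p : ℤ) : ℚ) / ((-q : ℤ) : ℚ) = (p : ℚ) / q := by
      push_cast
      rw [neg_div_neg_eq]
    rw [e] at h2
    rw [h2]
    push_cast
    have e2 : (-(q : ZMod M)) = -1 * (q : ZMod M) := by ring
    rw [e2, map_mul, hneg]
    ring
  · exact key p q h h1

theorem cop_frac {a b c d : ℤ} (h : a * d - b * c = 1) {p q : ℤ} (hpq : IsCoprime p q) :
    IsCoprime (a * p + b * q) (c * p + d * q) := by
  obtain ⟨u, v, huv⟩ := hpq
  refine ⟨u * d - v * c, v * a - u * b, ?_⟩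
  linear_combination (u * p + v * q) * h + huv

theorem num_den_cop (r : ℚ) : IsCoprime r.num (r.den : ℤ) := by
  rw [Int.isCoprime_iff_gcd_eq_one]
  exact r.reduced

theorem den_unit {r : ℚ} (h : r.den.Coprime M) : IsCoprime (r.den : ℤ) (M : ℤ) :=
  Nat.isCoprime_iff_coprime.2 h

theorem d_cop {a b c d : ℤ} (h : a * d - b * c = 1) (hM : (M : ℤ) ∣ c) : IsCoprime d (M : ℤ) := by
  obtain ⟨e, rfl⟩ := hM
  exact ⟨a, -(b * e), by linear_combination h⟩

theorem ne_of_cop (hM : 2 ≤ M) {d : ℤ} (h : IsCoprime d (M : ℤ)) : d ≠ 0 := by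
  rintro rfl
  have := isCoprime_zero_left.1 h
  rw [Int.isUnit_iff] at this
  omega

theorem psi_ne {ψ : MulChar (ZMod M) F} {d : ℤ} (h : IsCoprime d (M : ℤ)) : ψ (d : ZMod M) ≠ 0 := by
  have h1 : IsUnit (d : ZMod M) := by
    obtain ⟨u, v, huv⟩ := h
    refine IsUnit.of_mul_eq_one (u : ZMod M) ?_
    have := congrArg (fun x : ℤ => (x : ZMod M)) huv
    push_cast at this
    rw [ZMod.natCast_self, mul_zero, add_zero] at this
    rw [mul_comm]
    exact this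
  exact (h1.map ψ).ne_zero

theorem den_ne {M : ℕ} (hM : 2 ≤ M) {a b c d : ℤ} (h : a * d - b * c = 1) (hc : (M : ℤ) ∣ c) {r : ℚ}
    (hr : r.den.Coprime M) : c * r.num + d * r.den ≠ 0 ∧ IsCoprime (c * r.num + d * r.den) (M : ℤ) := by
  have h1 : IsCoprime (c * r.num + d * r.den) (M : ℤ) := by
    have h2 := (d_cop h hc).mul_left (den_unit hr)
    obtain ⟨e, rfl⟩ := hc
    have e1 : (M : ℤ) * e * r.num + d * r.den = d * r.den + M * (e * r.num) := by ring
    rw [e1]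
    exact h2.add_mul_left_left (e * r.num)
  exact ⟨ne_of_cop hM h1, h1⟩

/-- The transformation of `E₁`. -/
theorem E1_g {ψ : MulChar (ZMod M) F} (hneg : ψ (-1) = -1) (hM : 2 ≤ M) {a b c d : ℤ}
    (h : a * d - b * c = 1) (hc : (M : ℤ) ∣ c) {r : ℚ} (hr : r.den.Coprime M) :
    E1 ψ ((a * r + b) / (c * r + d)) =
      ψ (d : ZMod M) * ((a - b : F) * E1 ψ r + (b : F) * E1 ψ (r + 1)) := by
  obtain ⟨h1, h2⟩ := den_ne hM h hc hr
  have hq : (r.den : ℤ) ≠ 0 := by exact_mod_cast r.den_ne_zero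
  have hq' : (r.den : ℚ) ≠ 0 := by exact_mod_cast r.den_ne_zero
  have er : r = (r.num : ℚ) / ((r.den : ℤ) : ℚ) := by
    push_cast
    exact (Rat.num_div_den r).symm
  have e1 : (a * r + b) / (c * r + d) =
      (((a * r.num + b * r.den : ℤ)) : ℚ) / ((c * r.num + d * r.den : ℤ) : ℚ) := by
    have e2 : a * r + b = ((a * r.num + b * r.den : ℤ) : ℚ) / r.den := by
      push_cast
      rw [eq_div_iff hq']
      nth_rewrite 1 [er]
      push_cast
      field_simp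
    have e3 : c * r + d = ((c * r.num + d * r.den : ℤ) : ℚ) / r.den := by
      push_cast
      rw [eq_div_iff hq']
      nth_rewrite 1 [er]
      push_cast
      field_simp
    rw [e2, e3, div_div_div_cancel_right₀ hq']
  have e4 : r + 1 = ((r.num + r.den : ℤ) : ℚ) / ((r.den : ℤ) : ℚ) := by
    nth_rewrite 1 [er]
    push_cast
    field_simp
  have c1 : IsCoprime (r.num + r.den) (r.den : ℤ) := by
    have := (num_den_cop r).add_mul_left_left 1
    rwa [mul_one] at this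
  rw [e1, E1_frac hneg (cop_frac h (num_den_cop r)) h1, e4, E1_frac hneg c1 hq]
  have e5 : E1 ψ r = ψ ((r.den : ℤ) : ZMod M) * (r.num : F) := by
    unfold E1
    push_cast
    rfl
  rw [e5]
  have e6 : ((c * r.num + d * r.den : ℤ) : ZMod M) = (d : ZMod M) * ((r.den : ℤ) : ZMod M) := by
    obtain ⟨e, rfl⟩ := hc
    push_cast
    rw [ZMod.natCast_self]
    ring
  rw [e6, map_mul]
  push_cast
  ring

theorem E1_int {ψ : MulChar (ZMod M) F} (n : ℤ) : E1 ψ (n : ℚ) = (n : F) := by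
  unfold E1
  rw [Rat.den_intCast, Rat.num_intCast, Nat.cast_one, map_one, one_mul]

/-- Elements of `ℤ[1/3]` which are not integers: the denominator is divisible by `3`. -/
theorem AL_den {y : ℚ} (hy : AL 3 y) : ∃ i : ℕ, y.den = 3 ^ i := by
  obtain ⟨c, j, rfl⟩ := hy
  have h1 : (((c : ℚ) / ((3 : ℕ) : ℚ) ^ j).den : ℤ) ∣ (((3 : ℕ) : ℤ) ^ j) := by
    have e : ((c : ℚ) / ((3 : ℕ) : ℚ) ^ j) = Rat.divInt c (((3 : ℕ) : ℤ) ^ j) := by
      rw [Rat.divInt_eq_div]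
      push_cast
      rfl
    rw [e]
    exact Rat.den_dvd c _
  have h2 : ((c : ℚ) / ((3 : ℕ) : ℚ) ^ j).den ∣ 3 ^ j := by exact_mod_cast h1
  obtain ⟨i, -, hi⟩ := (Nat.dvd_prime_pow Nat.prime_three).1 h2
  exact ⟨i, hi⟩

theorem AL_of_den {y : ℚ} {i : ℕ} (h : y.den = 3 ^ i) : y = (y.num : ℚ) / ((3 : ℕ) : ℚ) ^ i := by
  have e := Rat.num_div_den y
  rw [h] at e
  push_cast at e ⊢
  exact e.symm

/-- The second difference. -/
theorem sec {h : ℚ → F} {ψ : MulChar (ZMod M) F}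
    (hG : ∀ a b c d : ℤ, a * d - b * c = 1 → (M : ℤ) ∣ c → ∀ r : ℚ, r.den.Coprime M →
      h ((a * r + b) / (c * r + d)) - h (b / d) =
        ψ (d : ZMod M) * ((a - b : F) * (h r - h 0) + (b : F) * (h (r + 1) - h 1)))
    {r : ℚ} (hr : r.den.Coprime M) : h (r + 2) - 2 * h (r + 1) + h r = h 2 - 2 * h 1 + h 0 := by
  have h1 := hG 1 2 0 1 (by norm_num) (dvd_zero _) r hr
  have e1 : (((1 : ℤ) : ℚ) * r + ((2 : ℤ) : ℚ)) / (((0 : ℤ) : ℚ) * r + ((1 : ℤ) : ℚ)) = r + 2 := by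
    push_cast
    rw [zero_mul, zero_add, div_one, one_mul]
  have e2 : (((2 : ℤ) : ℚ)) / ((1 : ℤ) : ℚ) = 2 := by norm_num
  rw [e1, e2] at h1
  push_cast at h1
  rw [map_one] at h1
  linear_combination h1

theorem sec0 {h : ℚ → F} {ψ : MulChar (ZMod M) F} (ho : Nat.Coprime 3 M)
    (hG : ∀ a b c d : ℤ, a * d - b * c = 1 → (M : ℤ) ∣ c → ∀ r : ℚ, r.den.Coprime M →
      h ((a * r + b) / (c * r + d)) - h (b / d) =
        ψ (d : ZMod M) * ((a - b : F) * (h r - h 0) + (b : F) * (h (r + 1) - h 1)))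
    (hA : ∀ y : ℚ, AL 3 y → (∀ n : ℤ, y ≠ n) → h (y + 1) = h y) : h 2 - 2 * h 1 + h 0 = 0 := by
  have hy : AL 3 (1 / 3 : ℚ) := ⟨1, 1, by norm_num⟩
  have hy' : AL 3 (1 / 3 + 1 : ℚ) := hy.add (by norm_num) AL.one
  have n1 : ∀ n : ℤ, (1 / 3 : ℚ) ≠ n := by
    intro n hn
    have : (1 : ℚ) = 3 * n := by
      rw [← hn]
      norm_num
    have h2 : (1 : ℤ) = 3 * n := by exact_mod_cast this
    omega
  have n2 : ∀ n : ℤ, (1 / 3 + 1 : ℚ) ≠ n := by
    intro n hn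
    apply n1 (n - 1)
    push_cast
    rw [← hn]
    ring
  have h1 := hA _ hy n1
  have h2 := hA _ hy' n2
  have h3 := sec hG (r := 1 / 3) (thmV_den ho hy)
  have e : (1 / 3 + 1 + 1 : ℚ) = 1 / 3 + 2 := by norm_num
  rw [e] at h2
  rw [← h3]
  linear_combination h2 - h1

/-- `h(n + 1) - h(n)` for integers `n`. -/
theorem dif_int {h : ℚ → F} {ψ : MulChar (ZMod M) F} (ho : Nat.Coprime 3 M)
    (hG : ∀ a b c d : ℤ, a * d - b * c = 1 → (M : ℤ) ∣ c → ∀ r : ℚ, r.den.Coprime M →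
      h ((a * r + b) / (c * r + d)) - h (b / d) =
        ψ (d : ZMod M) * ((a - b : F) * (h r - h 0) + (b : F) * (h (r + 1) - h 1)))
    (hA : ∀ y : ℚ, AL 3 y → (∀ n : ℤ, y ≠ n) → h (y + 1) = h y) (n : ℤ) :
    h ((n : ℚ) + 1) - h n = h 1 - h 0 := by
  have hs : ∀ n : ℤ, h ((n : ℚ) + 2) - h ((n : ℚ) + 1) = h ((n : ℚ) + 1) - h n := by
    intro n
    have h1 := sec hG (r := (n : ℚ)) (thmV_den ho (AL.int n))
    rw [sec0 ho hG hA] at h1
    linear_combination h1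
  induction n using Int.induction_on with
  | zero =>
    norm_num
  | succ i ih =>
    have h1 := hs i
    push_cast at ih h1 ⊢
    have e : ((i : ℚ) + 1 + 1) = (i : ℚ) + 2 := by ring
    rw [e, h1, ih]
  | pred i ih =>
    have h1 := hs (-(i : ℤ) - 1)
    push_cast at ih h1 ⊢
    have e : (-(i : ℚ) - 1 + 2) = -(i : ℚ) + 1 := by ring
    have e' : (-(i : ℚ) - 1 + 1) = -(i : ℚ) := by ring
    rw [e, e'] at h1
    rw [e', ← h1]
    exact ih

/-- The matrix for the claim. -/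
theorem mat (ho : Nat.Coprime 3 M) (hM : 2 ≤ M) {p : ℤ} (hp : ¬ (3 : ℤ) ∣ p) (i : ℕ) :
    ∃ (a b c : ℤ) (K : ℕ), a * 3 ^ K - b * c = 1 ∧ (M : ℤ) ∣ c ∧ ¬ (3 : ℤ) ∣ c ∧
      c * p + 3 ^ (K + i) = 1 := by
  have hp0 : p.natAbs ≠ 0 := by
    intro h
    have : p = 0 := by omega
    exact hp (this ▸ dvd_zero 3)
  have hc3 : Nat.Coprime 3 p.natAbs := by
    rw [Nat.Prime.coprime_iff_not_dvd Nat.prime_three]
    intro h
    apply hp
    omega
  have hcm : Nat.Coprime 3 (p.natAbs * M) := Nat.Coprime.mul_right hc3 ho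
  have hm0 : 0 < p.natAbs * M := Nat.mul_pos (by omega) (by omega)
  have hφ : 0 < Nat.totient (p.natAbs * M) := Nat.totient_pos.2 hm0
  obtain ⟨φ, hφe⟩ : ∃ φ, φ = Nat.totient (p.natAbs * M) := ⟨_, rfl⟩
  have hE : (p.natAbs * M : ℕ) ∣ 3 ^ (φ * (i + 1)) - 1 := by
    have h1 := Nat.ModEq.pow_totient hcm
    rw [← hφe] at h1
    have h2 := h1.pow (i + 1)
    rw [← pow_mul, one_pow] at h2
    exact (Nat.modEq_iff_dvd' (Nat.one_le_pow _ _ (by norm_num))).1 h2.symm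
  obtain ⟨K, hK, hK1⟩ : ∃ K, K + i = φ * (i + 1) ∧ 1 ≤ K := by
    have h1 : 1 * (i + 1) ≤ φ * (i + 1) := Nat.mul_le_mul_right _ (by omega)
    exact ⟨φ * (i + 1) - i, by omega, by omega⟩
  have hE' : (p * M : ℤ) ∣ 1 - 3 ^ (K + i) := by
    have h1 : ((p.natAbs * M : ℕ) : ℤ) ∣ ((3 ^ (φ * (i + 1)) - 1 : ℕ) : ℤ) := Int.natCast_dvd_natCast.2 hE
    rw [Nat.cast_sub (Nat.one_le_pow _ _ (by norm_num))] at h1
    push_cast at h1
    have h2 : (p * M : ℤ) ∣ (|p| * M : ℤ) := by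
      rcases abs_choice p with h | h <;> rw [h]
      exact ⟨-1, by ring⟩
    have h3 := (h2.trans h1)
    rw [← hK] at h3
    have e : (1 : ℤ) - 3 ^ (K + i) = -(3 ^ (K + i) - 1) := by ring
    rw [e]
    exact (dvd_neg).2 h3
  obtain ⟨s, hs⟩ := hE'
  have h3c : ¬ (3 : ℤ) ∣ M * s := by
    intro hdv
    have h1 : (3 : ℤ) ∣ 1 - 3 ^ (K + i) := by
      rw [hs, mul_assoc]
      exact hdv.mul_left p
    have h2 : (3 : ℤ) ∣ 3 ^ (K + i) := dvd_pow_self 3 (by omega)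
    have h3 : (3 : ℤ) ∣ 1 := by
      have := dvd_add h1 h2
      have e : (1 : ℤ) - 3 ^ (K + i) + 3 ^ (K + i) = 1 := by ring
      rwa [e] at this
    norm_num at h3
  have hcop : IsCoprime ((3 : ℤ) ^ K) (M * s) := by
    refine IsCoprime.pow_left ?_
    exact (Int.prime_three.coprime_iff_not_dvd).2 h3c
  obtain ⟨u, v, huv⟩ := hcop
  refine ⟨u, -v, M * s, K, by linear_combination huv, dvd_mul_right _ _, h3c, ?_⟩
  linear_combination -hs

/-- **The claim.** -/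
theorem const {Y : ℚ → F} {ψ : MulChar (ZMod M) F} (h3F : (3 : F) = 0) (ho : Nat.Coprime 3 M)
    (hM : 2 ≤ M)
    (hG : ∀ a b c d : ℤ, a * d - b * c = 1 → (M : ℤ) ∣ c → ∀ r : ℚ, r.den.Coprime M →
      Y ((a * r + b) / (c * r + d)) - Y (b / d) =
        ψ (d : ZMod M) * ((a - b : F) * (Y r - Y 0) + (b : F) * (Y (r + 1) - Y 1)))
    (hA : ∀ y : ℚ, AL 3 y → Y (y + 1) = Y y) {r : ℚ} (hr : AL 3 r) : Y r = Y 0 := by
  have hne : ∀ c : ℤ, ¬ (3 : ℤ) ∣ c → (c : F) ≠ 0 := by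
    intro c hc h0
    have hcop : IsCoprime (3 : ℤ) c := (Int.prime_three.coprime_iff_not_dvd).2 hc
    obtain ⟨u, v, huv⟩ := hcop
    have h1 := congrArg (fun x : ℤ => (x : F)) huv
    push_cast at h1
    rw [h3F, h0, mul_zero, mul_zero, add_zero] at h1
    exact zero_ne_one h1
  have main : ∀ (p : ℤ) (i : ℕ), ¬ (3 : ℤ) ∣ p → Y ((p : ℚ) / ((3 : ℕ) : ℚ) ^ i) = Y 0 := by
    intro p i hp
    obtain ⟨a, b, c, K, hdet, hMc, h3c, hcp⟩ := mat ho hM hp i
    obtain ⟨r, hre⟩ : ∃ r : ℚ, r = (p : ℚ) / ((3 : ℕ) : ℚ) ^ i := ⟨_, rfl⟩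
    have hrA : AL 3 r := ⟨p, i, hre⟩
    rw [← hre]
    have hrd := thmV_den ho hrA
    have g1 := hG a b c (3 ^ K) (by linear_combination hdet) hMc r hrd
    have g2 := hG (a + c) (b + 3 ^ K) c (3 ^ K) (by linear_combination hdet) hMc r hrd
    have h30 : ((3 : ℚ)) ^ i ≠ 0 := pow_ne_zero _ (by norm_num)
    have hden : (c : ℚ) * r + ((3 ^ K : ℤ) : ℚ) = 1 / 3 ^ i := by
      have h1 := congrArg (fun x : ℤ => (x : ℚ)) hcp
      push_cast at h1
      rw [hre]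
      push_cast
      rw [eq_div_iff h30, add_mul, ← pow_add, mul_div_assoc', div_mul_cancel₀ _ h30]
      exact h1
    have hden0 : (c : ℚ) * r + ((3 ^ K : ℤ) : ℚ) ≠ 0 := by
      rw [hden]
      exact one_div_ne_zero h30
    have hK0 : ((3 ^ K : ℤ) : ℚ) ≠ 0 := by
      push_cast
      exact pow_ne_zero _ (by norm_num)
    have e1 : (((a + c : ℤ) : ℚ) * r + ((b + 3 ^ K : ℤ) : ℚ)) / ((c : ℚ) * r + ((3 ^ K : ℤ) : ℚ)) =
        ((a : ℚ) * r + b) / ((c : ℚ) * r + ((3 ^ K : ℤ) : ℚ)) + 1 := by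
      rw [div_add_one hden0]
      congr 1
      push_cast
      ring
    have e2 : ((b + 3 ^ K : ℤ) : ℚ) / ((3 ^ K : ℤ) : ℚ) = (b : ℚ) / ((3 ^ K : ℤ) : ℚ) + 1 := by
      rw [div_add_one hK0]
      push_cast
      rfl
    have A1 : AL 3 (((a : ℚ) * r + b) / ((c : ℚ) * r + ((3 ^ K : ℤ) : ℚ))) := by
      rw [hden]
      have e3 : ((a : ℚ) * r + b) / (1 / 3 ^ i) = ((a : ℚ) * r + b) * ((3 ^ i : ℤ) : ℚ) := by
        push_cast
        field_simp
      rw [e3]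
      exact (((AL.int a).mul hrA).add (by norm_num) (AL.int b)).mul (AL.int _)
    have A2 : AL 3 ((b : ℚ) / ((3 ^ K : ℤ) : ℚ)) := ⟨b, K, by push_cast; rfl⟩
    rw [e1, e2, hA _ A1, hA _ A2, hA r hrA] at g2
    rw [hA r hrA] at g1
    have h1 : Y 1 = Y 0 := by
      have := hA 0 AL.zero
      rwa [zero_add] at this
    rw [h1] at g1 g2
    have g3 : ψ ((3 ^ K : ℤ) : ZMod M) * ((c : F) * (Y r - Y 0)) = 0 := by
      push_cast at g1 g2 ⊢
      linear_combination g1 - g2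
    have hψ : ψ ((3 ^ K : ℤ) : ZMod M) ≠ 0 := psi_ne (d_cop (a := a) (b := b) (by linear_combination hdet) hMc)
    have g4 := (mul_eq_zero.1 g3).resolve_left hψ
    have g5 := (mul_eq_zero.1 g4).resolve_left (hne c h3c)
    exact sub_eq_zero.1 g5
  obtain ⟨i, hi⟩ := AL_den hr
  have er := AL_of_den hi
  by_cases h3 : (3 : ℤ) ∣ r.num
  · have hi0 : i = 0 := by
      by_contra hne0
      have h1 : (3 : ℤ) ∣ (r.den : ℤ) := by
        rw [hi]
        push_cast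
        exact dvd_pow_self 3 hne0
      have h2 := (num_den_cop r).isUnit_of_dvd' h3 h1
      rw [Int.isUnit_iff] at h2
      omega
    have h4 := main (r.num + 1) 0 (by omega)
    rw [hi0, pow_zero, div_one] at er
    rw [pow_zero, div_one] at h4
    push_cast at h4
    rw [← er, hA r hr] at h4
    exact h4
  · rw [er]
    exact main r.num i h3

/-- **Theorem V, the special case.** -/
theorem thmV_one (ho : Nat.Coprime 3 M) (hM : 2 ≤ M) (h3F : (3 : F) = 0) {h : ℚ → F}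
    {ψ : MulChar (ZMod M) F} (hneg : ψ (-1) = -1)
    (hG : ∀ a b c d : ℤ, a * d - b * c = 1 → (M : ℤ) ∣ c → ∀ r : ℚ, r.den.Coprime M →
      h ((a * r + b) / (c * r + d)) - h (b / d) =
        ψ (d : ZMod M) * ((a - b : F) * (h r - h 0) + (b : F) * (h (r + 1) - h 1)))
    (hA : ∀ y : ℚ, AL 3 y → (∀ n : ℤ, y ≠ n) → h (y + 1) = h y)
    {b d : ℤ} (hbd : IsCoprime b d) (hb : (3 : ℤ) ∣ b) (hd : (M : ℤ) ∣ d - 1) : h (b / d) = h 0 := by
  obtain ⟨C, hC⟩ : ∃ C : F, C = h 1 - h 0 := ⟨_, rfl⟩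
  obtain ⟨Y, hY⟩ : ∃ Y : ℚ → F, ∀ r, Y r = h r - C * E1 ψ r := ⟨fun r => h r - C * E1 ψ r, fun _ => rfl⟩
  have E0' : E1 ψ (0 : ℚ) = 0 := by
    have := E1_int (ψ := ψ) 0
    push_cast at this
    exact this
  have E1' : E1 ψ (1 : ℚ) = 1 := by
    have := E1_int (ψ := ψ) 1
    push_cast at this
    exact this
  have hbc : ∀ a b c d : ℤ, a * d - b * c = 1 → IsCoprime b d := fun a b c d h1 =>
    ⟨-c, a, by linear_combination h1⟩
  have Eb : ∀ a b c d : ℤ, a * d - b * c = 1 → (M : ℤ) ∣ c →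
      E1 ψ ((b : ℚ) / d) = ψ (d : ZMod M) * (b : F) := fun a b c d h1 h2 =>
    E1_frac hneg (hbc a b c d h1) (ne_of_cop hM (d_cop h1 h2))
  have hGY : ∀ a b c d : ℤ, a * d - b * c = 1 → (M : ℤ) ∣ c → ∀ r : ℚ, r.den.Coprime M →
      Y ((a * r + b) / (c * r + d)) - Y (b / d) =
        ψ (d : ZMod M) * ((a - b : F) * (Y r - Y 0) + (b : F) * (Y (r + 1) - Y 1)) := by
    intro a b c d h1 h2 r hr
    have g1 := hG a b c d h1 h2 r hr
    rw [hY, hY, hY, hY, hY, hY, E0', E1', E1_g hneg hM h1 h2 hr, Eb a b c d h1 h2]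
    linear_combination g1
  have hAY : ∀ y : ℚ, AL 3 y → Y (y + 1) = Y y := by
    intro y hy
    have hq : (y.den : ℤ) ≠ 0 := by exact_mod_cast y.den_ne_zero
    have hEy : E1 ψ (y + 1) - E1 ψ y = ψ (y.den : ZMod M) * (y.den : F) := by
      have er : y = (y.num : ℚ) / ((y.den : ℤ) : ℚ) := by
        push_cast
        exact (Rat.num_div_den y).symm
      have hq' : (y.den : ℚ) ≠ 0 := by exact_mod_cast y.den_ne_zero
      have e4 : y + 1 = ((y.num + y.den : ℤ) : ℚ) / ((y.den : ℤ) : ℚ) := by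
        nth_rewrite 1 [er]
        push_cast
        field_simp
      have c1 : IsCoprime (y.num + y.den) (y.den : ℤ) := by
        have := (num_den_cop y).add_mul_left_left 1
        rwa [mul_one] at this
      rw [e4, E1_frac hneg c1 hq]
      unfold E1
      push_cast
      ring
    by_cases hn : ∀ n : ℤ, y ≠ n
    · have h1 := hA y hy hn
      obtain ⟨i, hi⟩ := AL_den hy
      have hi0 : i ≠ 0 := by
        rintro rfl
        apply hn y.num
        have := Rat.num_div_den y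
        rw [hi] at this
        rw [← this]
        norm_num
      have h2 : (y.den : F) = 0 := by
        rw [hi]
        push_cast
        rw [h3F]
        exact zero_pow hi0
      rw [h2, mul_zero] at hEy
      rw [hY, hY, h1, sub_eq_zero.1 hEy]
    · push Not at hn
      obtain ⟨n, hn⟩ := hn
      have h1 := dif_int ho hG hA n
      rw [← hn, ← hC] at h1
      have h2 : y.den = 1 := by
        rw [hn]
        exact Rat.den_intCast n
      rw [h2] at hEy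
      push_cast at hEy
      rw [map_one, one_mul] at hEy
      rw [hY, hY]
      linear_combination h1 - C * hEy
  have hc : ∀ y : ℚ, AL 3 y → Y y = Y 0 := fun y hy => const h3F ho hM hGY hAY hy
  have hfin := thmV (E := fun r s => Y r = Y s) Nat.prime_three (by norm_num) ho hM
    ⟨fun r => rfl, fun h1 => h1.symm, fun h1 h2 => h1.trans h2⟩ (by
      intro a b c d h1 h2 y hy
      have g1 := hGY a b c d h1 h2 y (thmV_den ho hy)
      rw [hc y hy, hc (y + 1) (hy.add (by norm_num) AL.one), hc 1 AL.one] at g1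
      rw [sub_self, mul_zero, mul_zero, add_zero, mul_zero] at g1
      exact sub_eq_zero.1 g1) hbd hd
  have hdM : IsCoprime d (M : ℤ) := by
    obtain ⟨e, he⟩ := hd
    exact ⟨1, -e, by linear_combination he⟩
  have hE : E1 ψ ((b : ℚ) / d) = 0 := by
    rw [E1_frac hneg hbd (ne_of_cop hM hdM)]
    obtain ⟨b', rfl⟩ := hb
    push_cast
    rw [h3F]
    ring
  have hfin' : Y (b / d) = Y 0 := hfin
  rw [hY, hY, hE, E0'] at hfin'
  linear_combination hfin'

end Pool.Agent.DM.V1
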