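import Pool.Agent.Lib.DM.IfaceC
import Pool.Agent.Lib.DM.V.V
import Pool.Agent.Lib.DM.V.V1
import Pool.Agent.Lib.DN.C.Ech
import Pool.Agent.Lib.DI.F.VPB

/-!
# Theorem DM, part V: the statement `S_Vq` (author helper85)

From `Cst` and `S_V`. If not `k = e = 1`: `thmV` for the relation `x(r) = x(s)` modulo `P`. If `k = e = 1`: the character
`ψ(d) = eps(d) χ(d')` modulo `P` (`d'` prime to `3`, `d' = d` modulo `M`) is a character of `ZMod M` with `ψ(-1) = -1`;
`x(r + 3) = x(r)` (by `S_V` and `x(4) = x(1)`), and `x(y + 1) = x(y)` for `y = c/3^i`, `i ≥ 1`, since `u y = y + c²` for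
`u = 1 + 3^i c`; then `V1.thmV_one`.
-/

set_option autoImplicit false

open scoped Pointwise

noncomputable section

namespace Pool.Agent.DM.Vq

open Pool.Agent.MuZ Pool.Agent.FW Pool.Agent.DN
open Pool.Agent.DI (io ofC io_inj exists_io io_ofC ofC_io VP MP UP TP ex)
open Pool.Agent.DI.F
open _root_.DT.V (AL)

variable {n t : ℕ}

/-! ## The character -/

theorem eps_mul {d d' : ℤ} (h : d ≠ 0) (h' : d' ≠ 0) : eps n t (d * d') = eps n t d * eps n t d' := by
  unfold eps
  rw [Int.sign_mul, Int.natAbs_mul, jacobiSym.mul_right' _ (Int.natAbs_ne_zero.2 h) (Int.natAbs_ne_zero.2 h')]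
  ring

/-- An integer prime to `3` and congruent to `d` modulo `M`. -/
def rp (M : ℕ) (d : ℤ) : ℤ := if (3 : ℤ) ∣ d then d + M else d

theorem rp_three {M : ℕ} (hM : M % 3 = 1) (d : ℤ) : ¬ (3 : ℤ) ∣ rp M d := by
  unfold rp
  split_ifs with h
  · omega
  · exact h

theorem rp_dvd (M : ℕ) (d : ℤ) : (M : ℤ) ∣ rp M d - d := by
  unfold rp
  split_ifs with h
  · exact ⟨1, by ring⟩
  · exact ⟨0, by ring⟩

theorem cop_of_dvd {M : ℤ} {u v : ℤ} (h : M ∣ u - v) (hv : IsCoprime v M) : IsCoprime u M := by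
  obtain ⟨c, hc⟩ := h
  have h1 : u = v + M * c := by linarith
  rw [h1]
  exact hv.add_mul_left_left c

theorem cop_three {u : ℤ} (h : ¬ (3 : ℤ) ∣ u) : IsCoprime u 3 := by
  have h1 : IsCoprime (3 : ℤ) u := (Int.prime_three.coprime_iff_not_dvd).2 h
  exact h1.symm

theorem PrI_int {u : ℤ} {N : ℕ} (h : IsCoprime u (N : ℤ)) : PrI (sp (u : OO n t)) N := by
  unfold PrI
  rw [Ideal.eq_top_iff_one]
  obtain ⟨x, y, hxy⟩ := h
  refine Submodule.mem_sup.2 ⟨(x : OO n t) * u, ?_, (y : OO n t) * N, ?_, ?_⟩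
  · exact Ideal.mul_mem_left _ _ (Ideal.mem_span_singleton_self _)
  · exact Ideal.mul_mem_left _ _ (Ideal.mem_span_singleton_self _)
  · have := congrArg (fun z : ℤ => (z : OO n t)) hxy
    push_cast at this
    exact this

theorem int_ne {u : ℤ} (h : u ≠ 0) : sp (u : OO n t) ≠ ⊥ := by
  intro h0
  have h1 : (u : OO n t) = 0 := Ideal.span_singleton_eq_bot.1 h0
  have h2 := congrArg QuadraticAlgebra.re h1
  rw [re_int] at h2
  exact h h2

section chi

variable {f M : ℕ} {χ : Ideal (OO n t) → Om} {P : Ideal ZZ}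

theorem chi_root (hχ : IsChi (3 * f) χ) : ∃ m : ℕ, m ≠ 0 ∧ ∀ b : Ideal (OO n t), b ≠ ⊥ →
    PrI b (3 * f) → χ b ^ m = 1 := by
  obtain ⟨m, hm, h⟩ := hχ.cop
  refine ⟨m, ?_, h⟩
  rintro rfl
  simp at hm

theorem chi_top (hχ : IsChi (3 * f) χ) : χ ⊤ = 1 := by
  obtain ⟨m, hm, h⟩ := chi_root hχ
  have h1 : χ ⊤ ^ m = 1 := h ⊤ top_ne_bot (by unfold PrI; exact top_sup_eq _)
  have h2 : χ ⊤ ≠ 0 := by
    intro h0
    rw [h0, zero_pow hm] at h1
    exact zero_ne_one h1
  have h3 := hχ.mul ⊤ ⊤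
  rw [Ideal.top_mul] at h3
  exact mul_left_cancel₀ h2 (by rw [mul_one]; exact h3.symm)

theorem chi_up (hχ : IsChi (3 * f) χ) (hP : P.IsPrime) {b : Ideal (OO n t)} (hb : b ≠ ⊥)
    (h : PrI b (3 * f)) : UP P (χ b) := by
  obtain ⟨m, hm, h1⟩ := chi_root hχ
  have h2 := h1 b hb h
  have h3 : IsIntegral ℤ (χ b) := IsIntegral.of_pow (Nat.pos_of_ne_zero hm) (by rw [h2]; exact isIntegral_one)
  have h4 := vp_integral hP h3
  refine ⟨h4, fun h5 => ?_⟩
  have h6 := (mp_pow_iff hP h4 hm).2 h5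
  rw [h2] at h6
  exact not_mp_one hP h6

theorem chi_mul (hχ : IsChi (3 * f) χ) (u v : ℤ) :
    χ (sp ((u * v : ℤ) : OO n t)) = χ (sp (u : OO n t)) * χ (sp (v : OO n t)) := by
  rw [← hχ.mul, Ideal.span_singleton_mul_span_singleton, Int.cast_mul]

theorem Cop_int {u : ℤ} {N : ℕ} (h : IsCoprime u (N : ℤ)) : Cop (u : OO n t) N := by
  unfold Cop
  rw [Nm_int]
  exact h.pow_left

/-- The values of `χ` at integers prime to `3 M` depend only on the class modulo `M`, modulo `P`. -/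
theorem chi_per (hχ : IsChi (3 * f) χ) (hP : P.IsPrime) (hT : Ty P f χ 0) (hf : f ∣ M) {u v : ℤ}
    (hu : IsCoprime u (M : ℤ)) (hv : IsCoprime v (M : ℤ)) (hu3 : ¬ (3 : ℤ) ∣ u) (hv3 : ¬ (3 : ℤ) ∣ v)
    (h : (M : ℤ) ∣ u - v) : MP P (χ (sp (u : OO n t)) - χ (sp (v : OO n t))) := by
  have c3 : ∀ {z : ℤ}, IsCoprime z (M : ℤ) → ¬ (3 : ℤ) ∣ z → IsCoprime z ((3 * f : ℕ) : ℤ) := by
    intro z h1 h2
    rw [Nat.cast_mul]
    exact (cop_three h2).mul_right (h1.of_isCoprime_of_dvd_right (Int.natCast_dvd_natCast.2 hf))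
  have n3 : ∀ {z : ℤ}, ¬ (3 : ℤ) ∣ z → z ≠ 0 := by
    rintro z h1 rfl
    exact h1 (dvd_zero _)
  have hc : IsCoprime u ((3 : ℤ) * M) := (cop_three hu3).mul_right hu
  obtain ⟨w, w', hw⟩ := hc
  have hw3 : ¬ (3 : ℤ) ∣ w := by
    rintro ⟨q, rfl⟩
    have h1 : (3 : ℤ) ∣ 1 := ⟨q * u + w' * M, by linear_combination -hw⟩
    norm_num at h1
  have hwM : IsCoprime w (M : ℤ) := ⟨u, 3 * w', by linear_combination hw⟩
  have hUw := chi_up hχ hP (int_ne (n := n) (t := t) (n3 hw3)) (PrI_int (c3 hwM hw3))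
  have k : ∀ z : ℤ, IsCoprime z (M : ℤ) → ¬ (3 : ℤ) ∣ z → (M : ℤ) ∣ w * z - 1 →
      MP P (χ (sp (w : OO n t)) * χ (sp (z : OO n t)) - 1) := by
    intro z hz hz3 hd
    have h1 := hT ((w * z : ℤ) : OO n t) ?_ ?_
    · rw [pow_zero, chi_mul hχ] at h1
      exact h1
    · obtain ⟨q, hq⟩ := (Int.natCast_dvd_natCast.2 hf).trans hd
      refine ⟨(q : OO n t), ?_⟩
      have := congrArg (fun z : ℤ => (z : OO n t)) hq
      push_cast at this ⊢
      exact this
    · refine Cop_int (N := 3) ?_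
      rw [Nat.cast_ofNat]
      exact (cop_three hw3).mul_left (cop_three hz3)
  have k1 := k u hu hu3 ⟨-(3 * w'), by linear_combination hw⟩
  obtain ⟨q, hq⟩ := h
  have k2 := k v hv hv3 ⟨-(3 * w') - w * q, by linear_combination hw - w * hq⟩
  have k3 := mp_sub hP k1 k2
  have k4 : χ (sp (w : OO n t)) * χ (sp (u : OO n t)) - 1 - (χ (sp (w : OO n t)) * χ (sp (v : OO n t)) - 1) =
      χ (sp (w : OO n t)) * (χ (sp (u : OO n t)) - χ (sp (v : OO n t))) := by ring
  rw [k4] at k3
  have v1 := (chi_up hχ hP (int_ne (n := n) (t := t) (n3 hu3)) (PrI_int (c3 hu hu3))).1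
  have v2 := (chi_up hχ hP (int_ne (n := n) (t := t) (n3 hv3)) (PrI_int (c3 hv hv3))).1
  exact (mp_or hP hUw.1 (vp_sub hP v1 v2) k3).resolve_left hUw.2

end chi

/-- Characters of `ZMod M` from functions on `ℤ`. -/
theorem exists_char {F : Type} [Field F] {M : ℕ} (hM : M ≠ 0) {c : ℤ → F} (h1 : c 1 = 1)
    (hm : ∀ u v : ℤ, IsCoprime u (M : ℤ) → IsCoprime v (M : ℤ) → c (u * v) = c u * c v)
    (hp : ∀ u v : ℤ, IsCoprime u (M : ℤ) → IsCoprime v (M : ℤ) → (M : ℤ) ∣ u - v → c u = c v) :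
    ∃ ψ : MulChar (ZMod M) F, ∀ d : ℤ, IsCoprime d (M : ℤ) → ψ (d : ZMod M) = c d := by
  classical
  have : NeZero M := ⟨hM⟩
  have hval : ∀ x : ZMod M, (((x.val : ℕ) : ℤ) : ZMod M) = x := by
    intro x
    rw [Int.cast_natCast, ZMod.natCast_zmod_val]
  have hu : ∀ {x : ZMod M}, IsUnit x → IsCoprime ((x.val : ℕ) : ℤ) (M : ℤ) := by
    intro x hx
    rw [← hval x] at hx
    exact ((ZMod.coe_int_isUnit_iff_isCoprime _ M).1 hx).symm
  have hd : ∀ {x y : ℤ}, (x : ZMod M) = (y : ZMod M) → (M : ℤ) ∣ x - y := by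
    intro x y h
    rw [← ZMod.intCast_zmod_eq_zero_iff_dvd, Int.cast_sub, h, sub_self]
  refine ⟨{ toFun := fun x => if IsUnit x then c ((x.val : ℕ) : ℤ) else 0
            map_one' := ?_
            map_mul' := ?_
            map_nonunit' := fun x hx => if_neg hx }, ?_⟩
  · rw [if_pos isUnit_one, ← h1]
    refine hp _ _ (hu isUnit_one) isCoprime_one_left (hd ?_)
    rw [hval, Int.cast_one]
  · intro x y
    by_cases hx : IsUnit x
    · by_cases hy : IsUnit y
      · rw [if_pos hx, if_pos hy, if_pos (hx.mul hy), ← hm _ _ (hu hx) (hu hy)]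
        refine hp _ _ (hu (hx.mul hy)) ((hu hx).mul_left (hu hy)) (hd ?_)
        rw [Int.cast_mul, hval, hval, hval]
      · rw [if_neg hy, if_neg (fun h => hy (isUnit_of_mul_isUnit_right h)), mul_zero]
    · rw [if_neg hx, if_neg (fun h => hx (isUnit_of_mul_isUnit_left h)), zero_mul]
  · intro d hd'
    have hu' : IsUnit (d : ZMod M) := (ZMod.coe_int_isUnit_iff_isCoprime d M).2 hd'.symm
    change (if IsUnit (d : ZMod M) then c ((((d : ZMod M)).val : ℕ) : ℤ) else 0) = c d
    rw [if_pos hu']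
    exact hp _ _ (hu hu') hd' (hd (hval _))

/-! ## Levels -/

theorem lv_facts {f M : ℕ} {m : Ideal (OO n t)} {R : Finset (Ideal (OO n t))} (hf : Fok f) (h : IsLv f m R M) :
    f ∣ M ∧ 4 * Dk n t ∣ M ∧ Nat.Coprime 3 M ∧ 2 ≤ M := by
  obtain ⟨h1, h2, h3⟩ := h
  obtain ⟨q, hq⟩ := hf.dvd
  have h4 : f ∣ lev f m R := by
    unfold lev
    exact Dvd.dvd.mul_right (Dvd.dvd.mul_left (dvd_pow_self f (by norm_num)) _) _
  have h5 : 4 * Dk n t ∣ lev f m R := by
    unfold lev
    refine Dvd.dvd.mul_right ⟨f * (5 * q), ?_⟩ _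
    rw [pow_two]
    nth_rewrite 2 [hq]
    ring
  have h6 : f ∣ M := h4.trans h3
  refine ⟨h6, h5.trans h3, ?_, ?_⟩
  · rw [Nat.Prime.coprime_iff_not_dvd Nat.prime_three]
    omega
  · have := Nat.le_of_dvd h1 h6
    have h20 := Nat.le_of_dvd hf.pos hf.dvd
    omega

theorem odd_cop [SqN n t] {M : ℕ} (h : 4 * Dk n t ∣ M) {d : ℤ} (hd : IsCoprime d (M : ℤ)) :
    Odd d ∧ IsCoprime d (Dk n t : ℤ) := by
  have h1 : IsCoprime d ((4 * Dk n t : ℕ) : ℤ) := hd.of_isCoprime_of_dvd_right (Int.natCast_dvd_natCast.2 h)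
  push_cast at h1
  refine ⟨?_, (IsCoprime.mul_right_iff.1 h1).2⟩
  have h2 : IsCoprime d 4 := (IsCoprime.mul_right_iff.1 h1).1
  obtain ⟨a, b, hab⟩ := h2
  rcases Int.even_or_odd d with h3 | h3
  · obtain ⟨e, he⟩ := h3
    have h4 : (2 : ℤ) ∣ 1 := ⟨a * e + 2 * b, by linear_combination -hab + a * he⟩
    norm_num at h4
  · exact h3

/-! ## The theorem -/

theorem den_frac {M : ℕ} {c : ℤ} {j : ℕ} (ho : Nat.Coprime 3 M) : ((c / 3 ^ j : ℚ)).den.Coprime M := by
  have := thmV_den ho (y := (c / 3 ^ j : ℚ)) ⟨c, j, by push_cast; rfl⟩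
  exact this

theorem tVq (hV : S_V) : S_Vq := by
  intro n t _ f M k e m R hm hR hRC hM χ hχ P hP hk he hT hC a b c d hg hd
  have hPp := hP.1.1
  have hP0 := hP.1.2
  obtain ⟨l1, l2, l3, l4⟩ := lv_facts hm.toFok hM.lv
  have hM3 := hM.lv.one
  have hS := hV n t f M k e m R hm hR hRC hM χ hχ P hP hk he hT
  obtain ⟨x, hx⟩ : ∃ x : ℚ → Om, x = xs P f k e m R χ := ⟨_, rfl⟩
  have hy : ∀ r, ys P f k e m R χ r = x (r + 1) - x r := fun r => by rw [hx]; rfl
  rw [← hx] at hS hC
  simp only [hy] at hS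
  rw [← hx]
  obtain ⟨hI, hS⟩ := hS
  obtain ⟨hC1, hC2⟩ := hC
  have hbd : IsCoprime (3 * b) d := by
    obtain ⟨q, hq⟩ := hd
    have h1 : IsCoprime (3 : ℤ) d := ⟨-(3 * M * q), 1, by linear_combination hq⟩
    have h2 : IsCoprime b d := ⟨-c, a, by linear_combination hg.1⟩
    exact h1.mul_left h2
  have hdM : (M : ℤ) ∣ d - 1 := (Dvd.intro_left 9 rfl).trans hd
  have hcast : (3 * b / d : ℚ) = ((3 * b : ℤ) : ℚ) / d := by push_cast; ring
  rw [hcast]
  have hsym : ∀ {p q : ℚ}, MP P (x p - x q) → MP P (x q - x p) := by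
    intro p q h
    have := mp_neg hPp h
    rwa [neg_sub] at this
  have htr : ∀ {p q r : ℚ}, MP P (x p - x q) → MP P (x q - x r) → MP P (x p - x r) := by
    intro p q r h h'
    have := mp_add hPp h h'
    rwa [sub_add_sub_cancel] at this
  by_cases hke : k = 1 ∧ e = 1
  · -- the special case
    obtain ⟨rfl, rfl⟩ := hke
    have hC := hC2 rfl rfl
    have hT0 : Ty P f χ 0 := hT
    obtain ⟨q1, q2, q3, q4⟩ := Pool.Agent.DN.C.tEch n t
    -- the character
    obtain ⟨cf, hcf⟩ : ∃ cf : ℤ → RF hPp hP0, ∀ d : ℤ,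
        cf d = red hPp hP0 ((eps n t d : Om) * χ (sp (rp M d : OO n t))) := ⟨_, fun _ => rfl⟩
    have hne3 : ∀ {z : ℤ}, ¬ (3 : ℤ) ∣ z → z ≠ 0 := by
      rintro z h1 rfl
      exact h1 (dvd_zero _)
    have hrM : ∀ {z : ℤ}, IsCoprime z (M : ℤ) → IsCoprime (rp M z) (M : ℤ) := fun h =>
      cop_of_dvd (rp_dvd M _) h
    have c3 : ∀ {z : ℤ}, IsCoprime z (M : ℤ) → ¬ (3 : ℤ) ∣ z → IsCoprime z ((3 * f : ℕ) : ℤ) := by
      intro z h1 h2
      rw [Nat.cast_mul]
      exact (cop_three h2).mul_right (h1.of_isCoprime_of_dvd_right (Int.natCast_dvd_natCast.2 l1))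
    have hcu : ∀ {z : ℤ}, IsCoprime z (M : ℤ) → ¬ (3 : ℤ) ∣ z → UP P (χ (sp (z : OO n t))) := fun h h' =>
      chi_up hχ hPp (int_ne (hne3 h')) (PrI_int (c3 h h'))
    have hvp : ∀ {z : ℤ}, IsCoprime z (M : ℤ) → VP P ((eps n t z : Om) * χ (sp (rp M z : OO n t))) := fun h =>
      vp_mul hPp (vp_intCast hPp _) (hcu (hrM h) (rp_three hM3 _)).1
    have hper : ∀ {u v : ℤ}, IsCoprime u (M : ℤ) → IsCoprime v (M : ℤ) → ¬ (3 : ℤ) ∣ u → ¬ (3 : ℤ) ∣ v →
        (M : ℤ) ∣ u - v → MP P (χ (sp (u : OO n t)) - χ (sp (v : OO n t))) := fun h1 h2 h3 h4 h5 =>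
      chi_per hχ hPp hT0 l1 h1 h2 h3 h4 h5
    have hM0 : M ≠ 0 := by omega
    have hz0 : ∀ {z : ℤ}, IsCoprime z (M : ℤ) → z ≠ 0 := by
      rintro z h1 rfl
      rw [isCoprime_zero_left, Int.isUnit_iff] at h1
      omega
    have hsp1 : sp ((1 : ℤ) : OO n t) = ⊤ := by
      rw [Int.cast_one]
      exact Ideal.span_singleton_one
    have hspm : sp ((-1 : ℤ) : OO n t) = ⊤ := by
      rw [Int.cast_neg, Int.cast_one, Ideal.span_singleton_eq_top]
      exact isUnit_one.neg
    have rp1 : rp M 1 = 1 := if_neg (by norm_num)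
    have rpm : rp M (-1) = -1 := if_neg (by norm_num)
    have hc1 : cf 1 = 1 := by
      rw [hcf, rp1, hsp1, chi_top hχ, q4, Int.cast_one, one_mul, red_one]
    have hcm1 : cf (-1) = -1 := by
      rw [hcf, rpm, hspm, chi_top hχ, q3 1, q4, Int.cast_neg, Int.cast_one, mul_one,
        red_neg hPp hP0 (vp_one hPp), red_one]
    obtain ⟨ψ, hψ⟩ := exists_char (F := RF hPp hP0) hM0 (c := cf) hc1 (by
      intro u v hu hv
      rw [hcf, hcf, hcf, ← red_mul hPp hP0 (hvp hu) (hvp hv),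
        red_eq_iff hPp hP0 (hvp (hu.mul_left hv)) (vp_mul hPp (hvp hu) (hvp hv))]
      have h1 : (M : ℤ) ∣ rp M (u * v) - rp M u * rp M v := by
        obtain ⟨x1, y1⟩ := rp_dvd M (u * v)
        obtain ⟨x2, y2⟩ := rp_dvd M u
        obtain ⟨x3, y3⟩ := rp_dvd M v
        exact ⟨x1 - x2 * rp M v - u * x3, by linear_combination y1 - rp M v * y2 - u * y3⟩
      have h2 : ¬ (3 : ℤ) ∣ rp M u * rp M v := fun h =>
        (Int.prime_three.dvd_or_dvd h).elim (rp_three hM3 u) (rp_three hM3 v)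
      have h3 := hper (hrM (hu.mul_left hv)) ((hrM hu).mul_left (hrM hv)) (rp_three hM3 _) h2 h1
      have h4 := vp_mul_mp hPp (vp_intCast hPp (eps n t (u * v))) h3
      have h5 : (eps n t (u * v) : Om) * (χ (sp (rp M (u * v) : OO n t)) - χ (sp ((rp M u * rp M v : ℤ) : OO n t))) =
          (eps n t (u * v) : Om) * χ (sp (rp M (u * v) : OO n t)) -
            (eps n t u : Om) * χ (sp (rp M u : OO n t)) * ((eps n t v : Om) * χ (sp (rp M v : OO n t))) := by
        rw [chi_mul hχ, eps_mul (hz0 hu) (hz0 hv)]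
        push_cast
        ring
      rwa [h5] at h4) (by
      intro u v hu hv huv
      rw [hcf, hcf, red_eq_iff hPp hP0 (hvp hu) (hvp hv)]
      have h1 : (M : ℤ) ∣ rp M u - rp M v := by
        obtain ⟨x2, y2⟩ := rp_dvd M u
        obtain ⟨x3, y3⟩ := rp_dvd M v
        obtain ⟨x4, y4⟩ := huv
        exact ⟨x2 - x3 + x4, by linear_combination y2 - y3 + y4⟩
      have h3 := hper (hrM hu) (hrM hv) (rp_three hM3 _) (rp_three hM3 _) h1
      have h6 : eps n t u = eps n t v := by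
        refine q2 u v (odd_cop l2 hu).1 (odd_cop l2 hv).1 (odd_cop l2 hu).2 ?_
        refine dvd_trans ?_ huv
        have := Int.natCast_dvd_natCast.2 l2
        push_cast at this
        exact this
      have h4 := vp_mul_mp hPp (vp_intCast hPp (eps n t u)) h3
      rw [mul_sub] at h4
      rwa [← h6])
    have hψm : ψ (-1) = -1 := by
      have h1 := hψ (-1) isCoprime_one_left.neg_left
      rw [Int.cast_neg, Int.cast_one] at h1
      rw [h1, hcm1]
    have h3F : (3 : RF hPp hP0) = 0 := by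
      have h1 : red hPp hP0 (3 : Om) = 3 := by
        have h6 : (3 : Om) = 1 + 1 + 1 := by norm_num
        rw [h6, red_add hPp hP0 (vp_add hPp (vp_one hPp) (vp_one hPp)) (vp_one hPp),
          red_add hPp hP0 (vp_one hPp) (vp_one hPp), red_one]
        norm_num
      rw [← h1]
      exact (red_eq_zero_iff hPp hP0 (mp_vp hP.2)).2 hP.2
    have redz : ∀ z : ℤ, red hPp hP0 (z : Om) = (z : RF hPp hP0) := by
      have hn : ∀ z : ℕ, red hPp hP0 (z : Om) = (z : RF hPp hP0) := by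
        intro z
        induction z with
        | zero => rw [Nat.cast_zero, Nat.cast_zero, red_zero]
        | succ z ih => rw [Nat.cast_succ, Nat.cast_succ, red_add hPp hP0 (vp_natCast hPp z) (vp_one hPp), ih, red_one]
      intro z
      rcases Int.eq_nat_or_neg z with ⟨w, rfl | rfl⟩
      · rw [Int.cast_natCast, Int.cast_natCast, hn]
      · rw [Int.cast_neg, Int.cast_neg, Int.cast_natCast, Int.cast_natCast,
          red_neg hPp hP0 (vp_natCast hPp w), hn]
    -- period 3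
    have hT3 : ∀ r : ℚ, r.den.Coprime M → MP P (x (r + 3) - x 3 - (x r - x 0)) := by
      intro r hr
      have h1 := (hS 1 3 0 1 1 ⟨by norm_num, dvd_zero _⟩ (by norm_num) ⟨0, by norm_num⟩).2.2.1 (Or.inl rfl) r hr
      have h2 := h1.1
      have e1 : (((1 : ℤ) : ℚ) * r + ((3 : ℤ) : ℚ)) / (((0 : ℤ) : ℚ) * r + ((1 : ℤ) : ℚ)) = r + 3 := by
        push_cast
        rw [zero_mul, zero_add, div_one, one_mul]
      have e2 : ((3 : ℤ) : ℚ) / ((1 : ℤ) : ℚ) = 3 := by push_cast; rw [div_one]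
      have e3 : psV 1 χ 1 1 = 1 := by
        unfold psV
        rw [hsp1, chi_top hχ, q4]
        norm_num
      rw [e1, e2, e3] at h2
      have hden : ∀ z : ℕ, (r + z).den.Coprime M := by
        intro z
        rw [Rat.add_natCast_den]
        exact hr
      have v1 := hI (r + 1) (by have := hden 1; rwa [Nat.cast_one] at this)
      have v2 := hI r hr
      have v3 : VP P (x (0 + 1)) := hI _ (by norm_num)
      have v4 : VP P (x 0) := hI 0 (by norm_num)
      have h3 : MP P (3 * (x (r + 1) - x r - (x (0 + 1) - x 0))) :=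
        mp_mul_vp hPp hP.2 (vp_sub hPp (vp_sub hPp v1 v2) (vp_sub hPp v3 v4))
      have h4 := mp_add hPp h2 h3
      have e4 : x (r + 3) - x 3 - 1 * (((1 : ℤ) : Om) * (x r - x 0) + ((3 : ℤ) : Om) * (x (r + 1) - x r -
          (x (0 + 1) - x 0))) + 3 * (x (r + 1) - x r - (x (0 + 1) - x 0)) = x (r + 3) - x 3 - (x r - x 0) := by
        push_cast
        ring
      rwa [e4] at h4
    have h30 : MP P (x 3 - x 0) := by
      have h1 := hT3 1 (by norm_num)
      have h2 := hC 1 4 0 ⟨1, by norm_num⟩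
      norm_num at h1 h2
      have h3 := mp_sub hPp h2 h1
      have e1 : x 4 - x 1 - (x 4 - x 3 - (x 1 - x 0)) = x 3 - x 0 := by ring
      rwa [e1] at h3
    have hT3' : ∀ r : ℚ, r.den.Coprime M → MP P (x (r + 3) - x r) := by
      intro r hr
      have h1 := mp_add hPp (hT3 r hr) h30
      have e1 : x (r + 3) - x 3 - (x r - x 0) + (x 3 - x 0) = x (r + 3) - x r := by ring
      rwa [e1] at h1
    have hT3n : ∀ (r : ℚ) (q : ℕ), r.den.Coprime M → MP P (x (r + 3 * q) - x r) := by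
      intro r q hr
      induction q with
      | zero =>
        rw [Nat.cast_zero, mul_zero, add_zero, sub_self]
        exact mp_zero hPp
      | succ q ih =>
        have h1 := hT3' (r + 3 * q) (by
          have := Rat.add_natCast_den r (3 * q)
          push_cast at this
          rw [this]
          exact hr)
        have e1 : r + 3 * ((q + 1 : ℕ) : ℚ) = r + 3 * q + 3 := by push_cast; ring
        rw [e1]
        exact htr h1 ih
    have hgoal := V1.thmV_one (F := RF hPp hP0) (h := fun r => red hPp hP0 (x r)) (ψ := ψ) l3 l4 h3F hψm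
      (by
        intro a b c d h1 h2 r hr
        have hdM : IsCoprime d (M : ℤ) := V1.d_cop h1 h2
        have k1 := hS a b c d (rp M d) ⟨h1, h2⟩ (rp_three hM3 d) (rp_dvd M d)
        obtain ⟨k2, k3, k4, -⟩ := k1
        have k5 := (k4 (Or.inl rfl) r hr).1
        have k6 := k3 r hr
        have hb0 : (b / d : ℚ).den.Coprime M := by
          have := (k3 0 (by norm_num)).2
          rwa [mul_zero, mul_zero, zero_add, zero_add] at this
        have hr1 : (r + 1).den.Coprime M := by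
          have := Rat.add_natCast_den r 1
          push_cast at this
          rw [this]
          exact hr
        have w1 := hI _ k6.2
        have w2 := hI _ hb0
        have w3 := hI _ hr
        have w4 := hI 0 (by norm_num)
        have w5 := hI _ hr1
        have w6 := hI 1 (by norm_num)
        rw [zero_add] at k5
        have e1 : psV 1 χ d (rp M d) = (eps n t d : Om) * χ (sp (rp M d : OO n t)) := by
          unfold psV
          rw [Nat.sub_self, pow_zero, mul_one]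
        rw [hψ d hdM, hcf, ← e1]
        have w7 := k2.1
        have u1 := vp_sub hPp w3 w4
        have u2 := vp_sub hPp w5 w6
        have e2 : x ((a * r + b) / (c * r + d)) - x (b / d) -
            psV 1 χ d (rp M d) * (a * (x r - x 0) + b * (x (r + 1) - x r - (x 1 - x 0))) =
            x ((a * r + b) / (c * r + d)) - x (b / d) -
            psV 1 χ d (rp M d) * ((((a - b : ℤ)) : Om) * (x r - x 0) + (b : Om) * (x (r + 1) - x 1)) := by
          push_cast
          ring
        rw [e2] at k5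
        have w8 := vp_mul hPp (vp_intCast hPp (a - b)) u1
        have w9 := vp_mul hPp (vp_intCast hPp b) u2
        have k7 := (red_eq_iff hPp hP0 (vp_sub hPp w1 w2) (vp_mul hPp w7 (vp_add hPp w8 w9))).2 k5
        rw [red_sub hPp hP0 w1 w2, red_mul hPp hP0 w7 (vp_add hPp w8 w9), red_add hPp hP0 w8 w9,
          red_mul hPp hP0 (vp_intCast hPp (a - b)) u1, red_mul hPp hP0 (vp_intCast hPp b) u2, redz, redz,
          red_sub hPp hP0 w3 w4, red_sub hPp hP0 w5 w6] at k7
        rw [k7]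
        push_cast
        ring)
      (by
        intro y hy hyn
        obtain ⟨i, hi⟩ := V1.AL_den hy
        have hi0 : i ≠ 0 := by
          rintro rfl
          rw [pow_zero] at hi
          exact hyn y.num ((Rat.den_eq_one_iff y).1 hi).symm
        have h3 : ¬ (3 : ℤ) ∣ y.num := by
          intro h
          have h1 := V1.num_den_cop y
          rw [hi] at h1
          have h2 : IsCoprime (3 : ℤ) ((3 ^ i : ℕ) : ℤ) := h1.of_isCoprime_of_dvd_left h
          push_cast at h2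
          have h4 : IsCoprime (3 : ℤ) 3 := (IsCoprime.pow_right_iff (Nat.pos_of_ne_zero hi0)).1 h2
          rw [isCoprime_self, Int.isUnit_iff] at h4
          omega
        obtain ⟨c, hc⟩ : ∃ c : ℤ, c = y.num := ⟨_, rfl⟩
        have hyc : y = c / 3 ^ i := by
          have h := V1.AL_of_den hi
          rw [h, hc]
          push_cast
          rfl
        obtain ⟨i', rfl⟩ := Nat.exists_eq_succ_of_ne_zero hi0
        obtain ⟨q, hq⟩ : ∃ q : ℕ, c ^ 2 = 1 + 3 * q := by
          have h5 : (3 : ℤ) ∣ c ^ 2 - 1 := by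
            have h6 : c % 3 = 1 ∨ c % 3 = 2 := by omega
            rcases h6 with h6 | h6
            · have h7 : (3 : ℤ) ∣ c - 1 := by omega
              have h8 : c ^ 2 - 1 = (c - 1) * (c + 1) := by ring
              rw [h8]
              exact Dvd.dvd.mul_right h7 _
            · have h7 : (3 : ℤ) ∣ c + 1 := by omega
              have h8 : c ^ 2 - 1 = (c + 1) * (c - 1) := by ring
              rw [h8]
              exact Dvd.dvd.mul_right h7 _
          obtain ⟨q, hq⟩ := h5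
          have h9 : 0 < c ^ 2 := by
            have : c ≠ 0 := by
              rintro rfl
              exact h3 (hc ▸ dvd_zero _)
            positivity
          refine ⟨q.toNat, ?_⟩
          have h10 : 0 ≤ q := by omega
          rw [Int.toNat_of_nonneg h10]
          linarith
        have k1 := hC c (1 + 3 ^ (i' + 1) * c) (i' + 1) ⟨3 ^ i' * c, by ring⟩
        have hydM := thmV_den l3 hy
        have e1 : (((1 + 3 ^ (i' + 1) * c : ℤ)) : ℚ) * c / 3 ^ (i' + 1) = y + 1 + 3 * q := by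
          have h3p : (3 : ℚ) ^ (i' + 1) ≠ 0 := pow_ne_zero _ (by norm_num)
          have hq' : ((c : ℚ)) ^ 2 = 1 + 3 * q := by exact_mod_cast congrArg (fun z : ℤ => (z : ℚ)) hq
          rw [hyc]
          push_cast
          field_simp
          linear_combination (3 : ℚ) ^ (i' + 1) * hq'
        rw [e1, ← hyc] at k1
        have hy1 : (y + 1).den.Coprime M := by
          have := Rat.add_natCast_den y 1
          push_cast at this
          rw [this]
          exact hydM
        have k2 := htr (hsym (hT3n (y + 1) q hy1)) k1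
        exact (red_eq_iff hPp hP0 (hI _ hy1) (hI _ hydM)).2 k2)
      hbd (Dvd.intro b rfl) hdM
    have hb0 : (((3 * b : ℤ) : ℚ) / d).den.Coprime M := by
      have h1 : ((((3 * b : ℤ) : ℚ) / d).den : ℤ) ∣ d := by
        have h2 := Rat.den_dvd (3 * b) d
        rwa [Rat.divInt_eq_div] at h2
      obtain ⟨q, hq⟩ := hdM
      have h3 : IsCoprime d (M : ℤ) := ⟨1, -q, by linear_combination hq⟩
      exact Nat.isCoprime_iff_coprime.1 (h3.of_isCoprime_of_dvd_left h1)
    exact (red_eq_iff hPp hP0 (hI _ hb0) (hI 0 (by norm_num))).1 hgoal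
  · -- the general case
    have hC := hC1 hke
    have hA : ∀ y : ℚ, AL 3 y → MP P (x y - x 0) := by
      rintro y ⟨c, j, rfl⟩
      have := hC c j
      push_cast
      exact this
    refine thmV (E := fun r s => MP P (x r - x s)) Nat.prime_three (by norm_num) l3 l4
      ⟨fun r => by rw [sub_self]; exact mp_zero hPp, fun h => hsym h, fun h h' => htr h h'⟩ ?_ hbd hdM
    intro a b c d h1 h2 y hy
    have k1 := hS a b c d (rp M d) ⟨h1, h2⟩ (rp_three hM3 d) (rp_dvd M d)
    obtain ⟨k2, k3, k4, k5⟩ := k1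
    have a1 := hA y hy
    have a2 := hA (y + 1) (hy.add (by norm_num) AL.one)
    have a3 := hA (0 + 1) (AL.zero.add (by norm_num) AL.one)
    have a4 : MP P (x (y + 1) - x y - (x (0 + 1) - x 0)) := by
      have h := mp_sub hPp (mp_sub hPp a2 a1) a3
      have e1 : x (y + 1) - x 0 - (x y - x 0) - (x (0 + 1) - x 0) = x (y + 1) - x y - (x (0 + 1) - x 0) := by ring
      rwa [e1] at h
    have hden := thmV_den l3 hy
    rcases hk with rfl | rfl | rfl
    · have k6 := (k4 (Or.inl rfl) y hden).1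
      have k7 := mp_add hPp k6 (vp_mul_mp hPp k2.1 (mp_add hPp (vp_mul_mp hPp (vp_intCast hPp a) a1)
        (vp_mul_mp hPp (vp_intCast hPp b) a4)))
      rwa [sub_add_cancel] at k7
    · obtain ⟨j, hj⟩ := k5 rfl
      have k6 := (hj y hden).1
      have k7 := mp_add hPp k6 (vp_mul_mp hPp k2.1 (mp_add hPp a1 (vp_mul_mp hPp (vp_intCast hPp j) a4)))
      rwa [sub_add_cancel] at k7
    · have k6 := (k4 (Or.inr rfl) y hden).1
      have k7 := mp_add hPp k6 (vp_mul_mp hPp k2.1 (mp_add hPp (vp_mul_mp hPp (vp_intCast hPp a) a1)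
        (vp_mul_mp hPp (vp_intCast hPp b) a4)))
      rwa [sub_add_cancel] at k7

end Pool.Agent.DM.Vq
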